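import Pool.Agent.Run7.h634.L.Stein

/-!
# Consequences of the Steinberg relations
-/

namespace Run7.h634.L

open WithZero

/-- the vectors fixed by a subgroup -/
def fixedBy {G : Type*} [Group G] {V : Type*} [AddCommGroup V] [Module ℂ V]
    (ρ : Representation ℂ G V) (J : Subgroup G) : Submodule ℂ V where
  carrier := {x | ∀ g ∈ J, ρ g x = x}
  add_mem' {a b} ha hb g hg := by rw [map_add, ha g hg, hb g hg]
  zero_mem' g _ := map_zero _
  smul_mem' c a ha g hg := by rw [map_smul, ha g hg]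

lemma mem_fixedBy {G : Type*} [Group G] {V : Type*} [AddCommGroup V] [Module ℂ V]
    {ρ : Representation ℂ G V} {J : Subgroup G} {x : V} :
    x ∈ fixedBy ρ J ↔ ∀ g ∈ J, ρ g x = x := Iff.rfl

/-- the span of all translates of the vectors of `S` -/
def gen {G : Type*} [Group G] {V : Type*} [AddCommGroup V] [Module ℂ V]
    (ρ : Representation ℂ G V) (S : Set V) : Submodule ℂ V :=
  Submodule.span ℂ {x | ∃ g : G, ∃ h ∈ S, x = ρ g h}

section gen

variable {G : Type*} [Group G] {V : Type*} [AddCommGroup V] [Module ℂ V]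
  (ρ : Representation ℂ G V) (S : Set V)

lemma gen_stable : Stable ρ (gen ρ S) := by
  intro g b hb
  unfold gen at hb
  induction hb using Submodule.span_induction with
  | mem x hx =>
    obtain ⟨g', h, hh, rfl⟩ := hx
    rw [← Module.End.mul_apply, ← map_mul]
    exact Submodule.subset_span ⟨_, h, hh, rfl⟩
  | zero => rw [map_zero]; exact zero_mem _
  | add x y _ _ hx hy => rw [map_add]; exact add_mem hx hy
  | smul a x _ hx => rw [map_smul]; exact Submodule.smul_mem _ _ hx

lemma subset_gen : S ⊆ gen ρ S := fun h hh => Submodule.subset_span ⟨1, h, hh, by simp⟩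

lemma translate_mem_gen {h : V} (hh : h ∈ S) (g : G) : ρ g h ∈ gen ρ S :=
  Submodule.subset_span ⟨g, h, hh, rfl⟩

lemma gen_le {W : Submodule ℂ V} (hW : Stable ρ W) (hS : S ⊆ W) : gen ρ S ≤ W := by
  refine Submodule.span_le.mpr ?_
  rintro x ⟨g, h, hh, rfl⟩
  exact hW g h (hS hh)

lemma gen_le' {W : Submodule ℂ V} (hS : ∀ g, ∀ h ∈ S, ρ g h ∈ W) : gen ρ S ≤ W := by
  refine Submodule.span_le.mpr ?_
  rintro x ⟨g, h, hh, rfl⟩
  exact hS g h hh

end gen

/-- smoothness with respect to the principal congruence subgroups -/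
def LocSmooth {F : Type*} [Field F] (v : Valuation F ℤᵐ⁰) {V : Type*} [AddCommGroup V]
    [Module ℂ V] (ρ : Representation ℂ (GL (Fin 2) F) V) : Prop :=
  ∀ x : V, ∃ m : ℕ, ∀ g ∈ Kc v m, ρ g x = x

section smooth

variable {F : Type*} [Field F] {v : Valuation F ℤᵐ⁰} {V : Type*} [AddCommGroup V]
  [Module ℂ V] {ρ : Representation ℂ (GL (Fin 2) F) V}

/-- restriction to a subgroup -/
def resSub {G : Type*} [Group G] {V : Type*} [AddCommGroup V] [Module ℂ V]
    (ρ : Representation ℂ G V) (J : Subgroup G) : Representation ℂ J V :=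
  ρ.comp J.subtype

@[simp] lemma resSub_apply {G : Type*} [Group G] {V : Type*} [AddCommGroup V] [Module ℂ V]
    (ρ : Representation ℂ G V) (J : Subgroup G) (j : J) : resSub ρ J j = ρ j := rfl

lemma finOrb_of_smooth (hv : FinRes v) (hs : LocSmooth v ρ) (J : Subgroup (GL (Fin 2) F))
    (hJ : J ≤ GLint v) : FinOrb (resSub ρ J) := by
  intro x
  obtain ⟨m, hm⟩ := hs x
  refine ⟨(Kc v m).subgroupOf J, ?_, fun j hj => hm _ (Subgroup.mem_subgroupOf.mp hj)⟩
  have h1 := finiteIndex_Kc hv m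
  have h2 : (Kc v m).relIndex (GLint v) ≠ 0 := h1.index_ne_zero
  have h3 : (Kc v m).relIndex J ≠ 0 := fun h => h2 (Subgroup.relIndex_eq_zero_of_le_right hJ h)
  exact ⟨h3⟩

lemma LocSmooth.sub (hs : LocSmooth v ρ) (W : Submodule ℂ V) (hW : Stable ρ W) :
    LocSmooth v (subRep ρ W hW) := by
  intro x
  obtain ⟨m, hm⟩ := hs x
  exact ⟨m, fun g hg => Subtype.ext (hm g hg)⟩

lemma LocSmooth.quot (hs : LocSmooth v ρ) (W : Submodule ℂ V) (hW : Stable ρ W) :
    LocSmooth v (quotRep ρ W hW) := by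
  intro x
  obtain ⟨y, rfl⟩ := W.mkQ_surjective x
  obtain ⟨m, hm⟩ := hs y
  exact ⟨m, fun g hg => by rw [quotRep_mkQ, hm g hg]⟩

lemma LocSmooth.prod {U : Type*} [AddCommGroup U] [Module ℂ U]
    {σ : Representation ℂ (GL (Fin 2) F) U} (hs : LocSmooth v ρ) (ht : LocSmooth v σ) :
    ∀ x : V × U, ∃ m : ℕ, ∀ g ∈ Kc v m, (ρ g x.1, σ g x.2) = x := by
  intro x
  obtain ⟨m, hm⟩ := hs x.1
  obtain ⟨n, hn⟩ := ht x.2
  refine ⟨max m n, fun g hg => ?_⟩
  rw [hm g (Kc_anti v (le_max_left _ _) hg), hn g (Kc_anti v (le_max_right _ _) hg)]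

end smooth

variable {F k : Type*} [Field F] [Fintype k]

/-- A smooth representation generated by Steinberg vectors has no subquotient with a nonzero
`GL₂(O)`-fixed vector. -/
theorem noK (D : LocD F k) (hF : FinRes D.v) {V : Type*} [AddCommGroup V] [Module ℂ V]
    {ρ : Representation ℂ (GL (Fin 2) F) V} (hsm : LocSmooth D.v ρ) {S : Set V}
    (hS : ∀ h ∈ S, IsStein D ρ h) (htop : gen ρ S = ⊤)
    {U : Type*} [AddCommGroup U] [Module ℂ U] {σ : Representation ℂ (GL (Fin 2) F) U}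
    (hsub : IsSubquotient ρ σ) {u : U} (hu : ∀ κ ∈ GLint D.v, σ κ u = u) : u = 0 := by
  obtain ⟨B, hB, p, hp, hpe⟩ := hsub
  obtain ⟨b, rfl⟩ := hp u
  set J := GLint D.v with hJ
  have hN : ∀ κ ∈ J, ∀ v, ρ κ v - v ∈ coin (resSub ρ J) ⊤ := fun κ hκ v =>
    sub_mem_coin (resSub ρ J) (j := ⟨κ, hκ⟩) (Subgroup.mem_top _) v
  have h1 : gen ρ S ≤ coin (resSub ρ J) ⊤ :=
    gen_le' ρ S fun g h hh => (hS h hh).mem_of_K hN g
  have hb : (b : V) ∈ coin (resSub ρ J) ⊤ := h1 (by rw [htop]; trivial)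
  obtain ⟨s, hs, h0⟩ := avg_zero (resSub ρ J) (finOrb_of_smooth hF hsm J le_rfl) hb
  have h2 : ∑ j ∈ s, (⟨ρ j b, hB j b b.2⟩ : B) = 0 := by
    apply Subtype.ext
    rw [Submodule.coe_sum]
    exact h0
  have h3 := congrArg p h2
  rw [map_sum, map_zero] at h3
  simp only [hpe] at h3
  have h4 : ∀ j : J, σ j (p b) = p b := fun j => hu j j.2
  simp only [h4, Finset.sum_const] at h3
  have hc : (s.card : ℂ) ≠ 0 := by exact_mod_cast hs.card_pos.ne'
  have h5 : (s.card : ℂ) • p b = 0 := by rw [Nat.cast_smul_eq_nsmul]; exact h3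
  exact (smul_eq_zero.mp h5).resolve_left hc

/-- Two irreducible smooth representations with a nonzero Steinberg vector are isomorphic. -/
theorem stein_unique (D : LocD F k) (hF : FinRes D.v) {V U : Type*} [AddCommGroup V] [Module ℂ V]
    [AddCommGroup U] [Module ℂ U]
    {ρ : Representation ℂ (GL (Fin 2) F) V} {σ : Representation ℂ (GL (Fin 2) F) U}
    (hsρ : LocSmooth D.v ρ) (hsσ : LocSmooth D.v σ) (hρ : IsIrred ρ) (hσ : IsIrred σ)
    {h : V} {h' : U} (hh : IsStein D ρ h) (hh' : IsStein D σ h') (h0 : h ≠ 0) (h0' : h' ≠ 0) :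
    ∃ φ : V ≃ₗ[ℂ] U, ∀ g x, φ (ρ g x) = σ g (φ x) := by
  classical
  let τ : Representation ℂ (GL (Fin 2) F) (V × U) :=
    { toFun := fun g => (ρ g).prodMap (σ g)
      map_one' := by ext <;> simp
      map_mul' := fun x y => by ext <;> simp }
  have hτ : ∀ g x, τ g x = (ρ g x.1, σ g x.2) := fun g x => rfl
  have hst : IsStein D τ (h, h') :=
    { iw := fun i hi => by rw [hτ, hh.iw i hi, hh'.iw i hi]
      sc := fun z => by rw [hτ, hh.sc z, hh'.sc z]
      ww := by rw [hτ, hh.ww, hh'.ww]; rfl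
      sum := by
        have e1 : ∀ j, τ (D.rep j) (h, h') = (ρ (D.rep j) h, σ (D.rep j) h') := fun j => rfl
        simp only [e1]
        refine Prod.ext ?_ ?_
        · rw [Prod.fst_sum]; exact hh.sum
        · rw [Prod.snd_sum]; exact hh'.sum }
  set S := gen τ {(h, h')} with hSdef
  have hSst : Stable τ S := gen_stable τ _
  have hmem : (h, h') ∈ S := subset_gen τ _ rfl
  have hfst : ∀ x : V, ∃ y : U, (x, y) ∈ S := by
    have h1 : Stable ρ (S.map (LinearMap.fst ℂ V U)) := by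
      rintro g _ ⟨x, hx, rfl⟩
      exact ⟨τ g x, hSst g x hx, rfl⟩
    have h2 := (hρ.2 _ h1).resolve_left (by
      intro hbot
      have : h ∈ S.map (LinearMap.fst ℂ V U) := ⟨(h, h'), hmem, rfl⟩
      rw [hbot] at this
      exact h0 ((Submodule.mem_bot ℂ).mp this))
    intro x
    have : x ∈ S.map (LinearMap.fst ℂ V U) := by rw [h2]; trivial
    obtain ⟨y, hy, rfl⟩ := this
    exact ⟨y.2, hy⟩
  have hsnd : ∀ y : U, ∃ x : V, (x, y) ∈ S := by
    have h1 : Stable σ (S.map (LinearMap.snd ℂ V U)) := by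
      rintro g _ ⟨x, hx, rfl⟩
      exact ⟨τ g x, hSst g x hx, rfl⟩
    have h2 := (hσ.2 _ h1).resolve_left (by
      intro hbot
      have : h' ∈ S.map (LinearMap.snd ℂ V U) := ⟨(h, h'), hmem, rfl⟩
      rw [hbot] at this
      exact h0' ((Submodule.mem_bot ℂ).mp this))
    intro x
    have : x ∈ S.map (LinearMap.snd ℂ V U) := by rw [h2]; trivial
    obtain ⟨y, hy, rfl⟩ := this
    exact ⟨y.1, hy⟩
  -- the Iwahori-fixed vectors of `S` are the multiples of `(h, h')`
  have hIfix : ∀ x ∈ S, (∀ i ∈ Iw D.v 1, τ i x = x) → ∃ c : ℂ, x = c • (h, h') := by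
    intro x hx hfix
    set τS := subRep τ S hSst with hτS
    have hsmS : LocSmooth D.v τS := by
      intro y
      obtain ⟨m, hm⟩ := hsρ.prod hsσ (y : V × U)
      exact ⟨m, fun g hg => Subtype.ext (hm g hg)⟩
    have hhS : IsStein D τS ⟨(h, h'), hmem⟩ :=
      { iw := fun i hi => Subtype.ext (hst.iw i hi)
        sc := fun z => Subtype.ext (hst.sc z)
        ww := Subtype.ext hst.ww
        sum := by
          apply Subtype.ext
          rw [Submodule.coe_sum]
          exact hst.sum }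
    set J := Iw D.v 1 with hJ
    set N : Submodule ℂ S := coin (resSub τS J) ⊤ ⊔ Submodule.span ℂ {⟨(h, h'), hmem⟩} with hNdef
    have hN : ∀ i ∈ J, ∀ v, τS i v - v ∈ N := fun i hi v =>
      Submodule.mem_sup_left (sub_mem_coin (resSub τS J) (j := ⟨i, hi⟩) (Subgroup.mem_top _) v)
    have hhN : (⟨(h, h'), hmem⟩ : S) ∈ N := Submodule.mem_sup_right (Submodule.subset_span rfl)
    have hall : ∀ y : V × U, ∀ hy : y ∈ S, (⟨y, hy⟩ : S) ∈ N := by
      have hle : S ≤ N.map S.subtype := by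
        refine gen_le' τ _ ?_
        rintro g _ rfl
        exact ⟨τS g ⟨(h, h'), hmem⟩, hhS.mem_of_I hN hhN g, rfl⟩
      intro y hy
      obtain ⟨z, hz, hzy⟩ := hle hy
      have : z = ⟨y, hy⟩ := Subtype.ext hzy
      rwa [← this]
    obtain ⟨n, hn, c', hc', hsum⟩ := Submodule.mem_sup.mp (hall x hx)
    obtain ⟨c, rfl⟩ := Submodule.mem_span_singleton.mp hc'
    have hnfix : ∀ j : J, resSub τS J j n = n := by
      intro j
      have hn' : n = ⟨x, hx⟩ - c • (⟨(h, h'), hmem⟩ : S) := by rw [← hsum]; simp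
      rw [hn', map_sub, map_smul]
      have e1 : resSub τS J j ⟨x, hx⟩ = ⟨x, hx⟩ := Subtype.ext (hfix j j.2)
      have e2 : resSub τS J j ⟨(h, h'), hmem⟩ = ⟨(h, h'), hmem⟩ := Subtype.ext (hst.iw j j.2)
      rw [e1, e2]
    have hn0 : n = 0 := fixed_coin_zero (resSub τS J)
      (finOrb_of_smooth hF hsmS J (Iw_le_GLint _ _)) hn hnfix
    refine ⟨c, ?_⟩
    have := congrArg Subtype.val hsum
    rw [hn0, zero_add] at this
    exact this.symm
  have hker2 : ∀ y : U, (0, y) ∈ S → y = 0 := by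
    let M : Submodule ℂ U := S.comap (LinearMap.inr ℂ V U)
    have hM : Stable σ M := by
      intro g y hy
      have := hSst g _ hy
      have h1 : τ g (LinearMap.inr ℂ V U y) = LinearMap.inr ℂ V U (σ g y) := by
        rw [hτ]; simp
      rw [h1] at this
      exact this
    rcases hσ.2 M hM with hb | ht
    · intro y hy
      have : y ∈ M := hy
      rw [hb] at this
      exact (Submodule.mem_bot ℂ).mp this
    · exfalso
      have h1 : h' ∈ M := by rw [ht]; trivial
      have h2 : ((0 : V), h') ∈ S := h1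
      obtain ⟨c, hc⟩ := hIfix _ h2 (fun i hi => by
        rw [hτ]; simp [hh'.iw i hi])
      have h3 := congrArg Prod.fst hc
      have h4 := congrArg Prod.snd hc
      simp only [Prod.smul_fst, Prod.smul_snd] at h3 h4
      have hc0 : c = 0 := (smul_eq_zero.mp h3.symm).resolve_right h0
      rw [hc0, zero_smul] at h4
      exact h0' h4
  have hker1 : ∀ x : V, (x, 0) ∈ S → x = 0 := by
    let M : Submodule ℂ V := S.comap (LinearMap.inl ℂ V U)
    have hM : Stable ρ M := by
      intro g y hy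
      have := hSst g _ hy
      have h1 : τ g (LinearMap.inl ℂ V U y) = LinearMap.inl ℂ V U (ρ g y) := by
        rw [hτ]; simp
      rw [h1] at this
      exact this
    rcases hρ.2 M hM with hb | ht
    · intro y hy
      have : y ∈ M := hy
      rw [hb] at this
      exact (Submodule.mem_bot ℂ).mp this
    · exfalso
      have h1 : h ∈ M := by rw [ht]; trivial
      have h2 : (h, (0 : U)) ∈ S := h1
      obtain ⟨c, hc⟩ := hIfix _ h2 (fun i hi => by
        rw [hτ]; simp [hh.iw i hi])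
      have h3 := congrArg Prod.fst hc
      have h4 := congrArg Prod.snd hc
      simp only [Prod.smul_fst, Prod.smul_snd] at h3 h4
      have hc0 : c = 0 := (smul_eq_zero.mp h4.symm).resolve_right h0'
      rw [hc0, zero_smul] at h3
      exact h0 h3
  let p1 : S →ₗ[ℂ] V := (LinearMap.fst ℂ V U).comp S.subtype
  let p2 : S →ₗ[ℂ] U := (LinearMap.snd ℂ V U).comp S.subtype
  have b1 : Function.Bijective p1 := by
    refine ⟨?_, fun x => ?_⟩
    · rw [injective_iff_map_eq_zero]
      rintro ⟨⟨x, y⟩, hxy⟩ hx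
      have hx' : x = 0 := hx
      subst hx'
      have := hker2 y hxy
      subst this
      rfl
    · obtain ⟨y, hy⟩ := hfst x
      exact ⟨⟨(x, y), hy⟩, rfl⟩
  have b2 : Function.Bijective p2 := by
    refine ⟨?_, fun x => ?_⟩
    · rw [injective_iff_map_eq_zero]
      rintro ⟨⟨x, y⟩, hxy⟩ hx
      have hx' : y = 0 := hx
      subst hx'
      have := hker1 x hxy
      subst this
      rfl
    · obtain ⟨y, hy⟩ := hsnd x
      exact ⟨⟨(y, x), hy⟩, rfl⟩
  refine ⟨(LinearEquiv.ofBijective p1 b1).symm.trans (LinearEquiv.ofBijective p2 b2), ?_⟩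
  intro g x
  obtain ⟨s, rfl⟩ := b1.2 x
  have e1 : ρ g (p1 s) = p1 (subRep τ S hSst g s) := rfl
  have e2 : ∀ t : S, (LinearEquiv.ofBijective p1 b1).symm (p1 t) = t := by
    intro t
    rw [LinearEquiv.symm_apply_eq]; rfl
  rw [e1, LinearEquiv.trans_apply, LinearEquiv.trans_apply, e2, e2]
  rfl

/-- Admissibility of smooth representations generated by finitely many Steinberg vectors. -/
theorem stein_adm (D : LocD F k) (hF : FinRes D.v) {V : Type*} [AddCommGroup V] [Module ℂ V]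
    {ρ : Representation ℂ (GL (Fin 2) F) V} (hsm : LocSmooth D.v ρ) {S : Set V} (hSfin : S.Finite)
    (hS : ∀ h ∈ S, IsStein D ρ h) (htop : gen ρ S = ⊤) (m : ℕ) :
    FiniteDimensional ℂ (fixedBy ρ (Kc D.v m)) := by
  classical
  set J := Kc D.v m with hJ
  set C := coin (resSub ρ J) ⊤ with hC
  have hCm : ∀ κ ∈ J, ∀ v, ρ κ v - v ∈ C := fun κ hκ v =>
    sub_mem_coin (resSub ρ J) (j := ⟨κ, hκ⟩) (Subgroup.mem_top _) v
  -- the finite set of generators of `V / C`
  let E : V → V := fun h => ρ (dg 1 (D.p ^ m)) h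
  let T : Set (V ⧸ C) := {y | ∃ h ∈ S, ∃ κ ∈ GLint D.v, y = C.mkQ (ρ κ (E h))}
  have hTfin : T.Finite := by
    have hidx := finiteIndex_Kc hF m
    have : Finite ((GLint D.v) ⧸ ((Kc D.v m).subgroupOf (GLint D.v))) := inferInstance
    have hsub : T ⊆ ⋃ h ∈ S, Set.range
        (fun c : (GLint D.v) ⧸ ((Kc D.v m).subgroupOf (GLint D.v)) =>
          C.mkQ (ρ (c.out : GL (Fin 2) F) (E h))) := by
      rintro y ⟨h, hh, κ, hκ, rfl⟩
      refine Set.mem_biUnion hh ⟨QuotientGroup.mk ⟨κ, hκ⟩, ?_⟩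
      obtain ⟨n, hn⟩ := QuotientGroup.mk_out_eq_mul ((Kc D.v m).subgroupOf (GLint D.v)) ⟨κ, hκ⟩
      show C.mkQ _ = C.mkQ _
      rw [hn]
      have hn2 : ((n : GLint D.v) : GL (Fin 2) F) ∈ Kc D.v m := Subgroup.mem_subgroupOf.mp n.2
      have h1 : (((⟨κ, hκ⟩ : GLint D.v) * (n : GLint D.v) : GLint D.v) : GL (Fin 2) F) =
          (κ * (n : GLint D.v) * κ⁻¹) * κ := by
        rw [Subgroup.coe_mul]; group
      rw [h1, map_mul, Module.End.mul_apply, ← sub_eq_zero, ← map_sub, Submodule.mkQ_apply,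
        Submodule.Quotient.mk_eq_zero]
      exact hCm _ (Kc_conj D.v m hκ hn2) _
    refine Set.Finite.subset (Set.Finite.biUnion hSfin fun h _ => Set.finite_range _) hsub
  have hspan : Submodule.span ℂ T = ⊤ := by
    have h1 : gen ρ S ≤ (Submodule.span ℂ T).comap C.mkQ := by
      refine gen_le' ρ S fun g h hh => ?_
      refine (hS h hh).mem_of_Kc m ?_ ?_ g
      · intro κ hκ v
        have : C.mkQ (ρ κ v - v) = 0 := by
          rw [Submodule.mkQ_apply, Submodule.Quotient.mk_eq_zero]; exact hCm κ hκ v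
        rw [Submodule.mem_comap, this]; exact zero_mem _
      · intro κ hκ
        exact Submodule.subset_span ⟨h, hh, κ, hκ, rfl⟩
    rw [eq_top_iff]
    intro y _
    obtain ⟨x, rfl⟩ := C.mkQ_surjective y
    exact h1 (by rw [htop]; trivial)
  have hfd : FiniteDimensional ℂ (V ⧸ C) := by
    refine ⟨⟨hTfin.toFinset, ?_⟩⟩
    rw [Set.Finite.coe_toFinset]; exact hspan
  have hinj : Function.Injective (C.mkQ.comp (fixedBy ρ J).subtype) := by
    rw [injective_iff_map_eq_zero]
    rintro ⟨x, hx⟩ h1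
    have h2 : x ∈ C := (Submodule.Quotient.mk_eq_zero C).mp h1
    apply Subtype.ext
    exact fixed_coin_zero (resSub ρ J) (finOrb_of_smooth hF hsm J (Kc_le_GLint _ _)) h2
      (fun j => hx j j.2)
  exact Module.Finite.of_injective _ hinj

end Run7.h634.L
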