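import Mathlib

/-!
# `GL₂` over a discretely valued field

Elementary matrices, the maximal compact subgroup, the Iwahori subgroups `Iw m`, the congruence
subgroups `Kc m`.
-/

namespace Run7.h634.L

open Matrix WithZero

variable {F : Type*} [Field F]

/-- upper triangular unipotent matrix -/
def up (x : F) : GL (Fin 2) F where
  val := !![1, x; 0, 1]
  inv := !![1, -x; 0, 1]
  val_inv := by ext i j; fin_cases i <;> fin_cases j <;> simp
  inv_val := by ext i j; fin_cases i <;> fin_cases j <;> simp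

/-- lower triangular unipotent matrix -/
def lo (x : F) : GL (Fin 2) F where
  val := !![1, 0; x, 1]
  inv := !![1, 0; -x, 1]
  val_inv := by ext i j; fin_cases i <;> fin_cases j <;> simp
  inv_val := by ext i j; fin_cases i <;> fin_cases j <;> simp

/-- diagonal matrix -/
def dg (a d : Fˣ) : GL (Fin 2) F where
  val := !![(a : F), 0; 0, (d : F)]
  inv := !![((a⁻¹ : Fˣ) : F), 0; 0, ((d⁻¹ : Fˣ) : F)]
  val_inv := by ext i j; fin_cases i <;> fin_cases j <;> simp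
  inv_val := by ext i j; fin_cases i <;> fin_cases j <;> simp

/-- the Weyl element -/
def w0 : GL (Fin 2) F where
  val := !![0, 1; 1, 0]
  inv := !![0, 1; 1, 0]
  val_inv := by ext i j; fin_cases i <;> fin_cases j <;> simp
  inv_val := by ext i j; fin_cases i <;> fin_cases j <;> simp

/-- the matrix `(0, 1; p, 0)` -/
def ww (p : Fˣ) : GL (Fin 2) F where
  val := !![0, 1; (p : F), 0]
  inv := !![0, ((p⁻¹ : Fˣ) : F); 1, 0]
  val_inv := by ext i j; fin_cases i <;> fin_cases j <;> simp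
  inv_val := by ext i j; fin_cases i <;> fin_cases j <;> simp

@[simp] lemma up_val (x : F) : (up x).val = !![1, x; 0, 1] := rfl
@[simp] lemma lo_val (x : F) : (lo x).val = !![1, 0; x, 1] := rfl
@[simp] lemma dg_val (a d : Fˣ) : (dg a d).val = !![(a : F), 0; 0, (d : F)] := rfl
@[simp] lemma w0_val : (w0 : GL (Fin 2) F).val = !![0, 1; 1, 0] := rfl
@[simp] lemma ww_val (p : Fˣ) : (ww p).val = !![0, 1; (p : F), 0] := rfl

lemma gl_ext {g h : GL (Fin 2) F} (h00 : g.val 0 0 = h.val 0 0) (h01 : g.val 0 1 = h.val 0 1)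
    (h10 : g.val 1 0 = h.val 1 0) (h11 : g.val 1 1 = h.val 1 1) : g = h := by
  apply Units.ext
  ext i j
  fin_cases i <;> fin_cases j <;> assumption

lemma mul_val_ij (g h : GL (Fin 2) F) (i j : Fin 2) :
    (g * h).val i j = g.val i 0 * h.val 0 j + g.val i 1 * h.val 1 j := by
  rw [Units.val_mul, Matrix.mul_apply, Fin.sum_univ_two]

lemma det_val (g : GL (Fin 2) F) :
    g.val.det = g.val 0 0 * g.val 1 1 - g.val 0 1 * g.val 1 0 := Matrix.det_fin_two _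

lemma det_ne (g : GL (Fin 2) F) : g.val 0 0 * g.val 1 1 - g.val 0 1 * g.val 1 0 ≠ 0 := by
  rw [← det_val]; exact g.det_ne_zero

lemma inv_val_eq (g : GL (Fin 2) F) : (g⁻¹).val = (g.val.det)⁻¹ •
    !![g.val 1 1, -g.val 0 1; -g.val 1 0, g.val 0 0] := by
  rw [Matrix.coe_units_inv, Matrix.inv_def, Matrix.adjugate_fin_two, Ring.inverse_eq_inv']

lemma inv_00 (g : GL (Fin 2) F) : (g⁻¹).val 0 0 = (g.val.det)⁻¹ * g.val 1 1 := by
  rw [inv_val_eq]; simp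
lemma inv_01 (g : GL (Fin 2) F) : (g⁻¹).val 0 1 = -((g.val.det)⁻¹ * g.val 0 1) := by
  rw [inv_val_eq]; simp
lemma inv_10 (g : GL (Fin 2) F) : (g⁻¹).val 1 0 = -((g.val.det)⁻¹ * g.val 1 0) := by
  rw [inv_val_eq]; simp
lemma inv_11 (g : GL (Fin 2) F) : (g⁻¹).val 1 1 = (g.val.det)⁻¹ * g.val 0 0 := by
  rw [inv_val_eq]; simp

lemma up_mul (x y : F) : up x * up y = up (x + y) := by
  apply gl_ext <;> simp [add_comm]
lemma up_inv (x : F) : (up x)⁻¹ = up (-x) := by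
  rw [inv_eq_iff_mul_eq_one, up_mul]; apply gl_ext <;> simp
lemma lo_mul (x y : F) : lo x * lo y = lo (x + y) := by
  apply gl_ext <;> simp
lemma lo_inv (x : F) : (lo x)⁻¹ = lo (-x) := by
  rw [inv_eq_iff_mul_eq_one, lo_mul]; apply gl_ext <;> simp
lemma up_zero : up (0 : F) = 1 := by apply gl_ext <;> simp
lemma lo_zero : lo (0 : F) = 1 := by apply gl_ext <;> simp
lemma dg_mul (a d a' d' : Fˣ) : dg a d * dg a' d' = dg (a * a') (d * d') := by
  apply gl_ext <;> simp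
lemma dg_one : dg (1 : Fˣ) 1 = 1 := by apply gl_ext <;> simp
lemma dg_inv (a d : Fˣ) : (dg a d)⁻¹ = dg a⁻¹ d⁻¹ := by
  rw [inv_eq_iff_mul_eq_one, dg_mul]; simp [dg_one]
lemma w0_mul_w0 : (w0 : GL (Fin 2) F) * w0 = 1 := by apply gl_ext <;> simp
lemma w0_inv : (w0 : GL (Fin 2) F)⁻¹ = w0 := by
  rw [inv_eq_iff_mul_eq_one, w0_mul_w0]
lemma ww_mul_ww (p : Fˣ) : ww p * ww p = dg p p := by apply gl_ext <;> simp
lemma ww_mul_w0 (p : Fˣ) : ww p * w0 = dg 1 p := by apply gl_ext <;> simp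
lemma w0_mul_ww (p : Fˣ) : w0 * ww p = dg p 1 := by apply gl_ext <;> simp
lemma dg_mul_w0 (p : Fˣ) : dg 1 p * w0 = ww p := by apply gl_ext <;> simp
lemma sc_comm (z : Fˣ) (g : GL (Fin 2) F) : dg z z * g = g * dg z z := by
  apply gl_ext <;> simp [mul_val_ij, -Units.val_mul, mul_comm]

lemma dg_mul_up (a d : Fˣ) (x : F) :
    dg a d * up x = up ((a : F) * x * ((d⁻¹ : Fˣ) : F)) * dg a d := by
  apply gl_ext <;> simp

lemma dg_mul_lo (a d : Fˣ) (x : F) :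
    dg a d * lo x = lo ((d : F) * x * ((a⁻¹ : Fˣ) : F)) * dg a d := by
  apply gl_ext <;> simp

lemma w0_mul_up (x : F) : w0 * up x = lo x * w0 := by apply gl_ext <;> simp
lemma w0_mul_lo (x : F) : w0 * lo x = up x * w0 := by apply gl_ext <;> simp
lemma w0_mul_dg (a d : Fˣ) : w0 * dg a d = dg d a * w0 := by apply gl_ext <;> simp

/-! ### valuations -/

/-- the fractional ideal of elements of valuation at most `exp n` -/
def PP (v : Valuation F ℤᵐ⁰) (n : ℤ) : AddSubgroup F where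
  carrier := {x | v x ≤ exp n}
  add_mem' {a b} ha hb := (v.map_add a b).trans (max_le ha hb)
  zero_mem' := by simp
  neg_mem' {a} ha := by simpa using ha

lemma mem_PP {v : Valuation F ℤᵐ⁰} {n : ℤ} {x : F} : x ∈ PP v n ↔ v x ≤ exp n := Iff.rfl

lemma PP_mono {v : Valuation F ℤᵐ⁰} {m n : ℤ} (h : m ≤ n) : PP v m ≤ PP v n := by
  intro x hx
  rw [mem_PP] at hx ⊢
  exact hx.trans (by simpa using h)

lemma mul_mem_PP {v : Valuation F ℤᵐ⁰} {m n : ℤ} {x y : F} (hx : x ∈ PP v m) (hy : y ∈ PP v n) :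
    x * y ∈ PP v (m + n) := by
  rw [mem_PP] at *
  rw [map_mul, exp_add]
  exact mul_le_mul' hx hy

lemma mem_PP_zero {v : Valuation F ℤᵐ⁰} {x : F} : x ∈ PP v 0 ↔ v x ≤ 1 := by
  rw [mem_PP, exp_zero]

/-- `GL₂(O)` inside `GL₂(F)`: integral entries and unit determinant. -/
def GLint (v : Valuation F ℤᵐ⁰) : Subgroup (GL (Fin 2) F) where
  carrier := {g | (∀ i j, v (g.val i j) ≤ 1) ∧ v g.val.det = 1}
  one_mem' := by
    refine ⟨fun i j => ?_, by simp⟩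
    by_cases h : i = j
    · subst h; simp
    · simp [Matrix.one_apply_ne h]
  mul_mem' {a b} ha hb := by
    refine ⟨fun i j => ?_, by
      rw [Units.val_mul, Matrix.det_mul, map_mul, ha.2, hb.2, one_mul]⟩
    rw [mul_val_ij, ← mem_PP_zero]
    exact add_mem (by simpa using mul_mem_PP (mem_PP_zero.mpr (ha.1 i 0)) (mem_PP_zero.mpr (hb.1 0 j)))
      (by simpa using mul_mem_PP (mem_PP_zero.mpr (ha.1 i 1)) (mem_PP_zero.mpr (hb.1 1 j)))
  inv_mem' {a} ha := by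
    have hd : v (a⁻¹).val.det = 1 := by
      have h1 : (a⁻¹).val.det * a.val.det = 1 := by
        rw [← Matrix.det_mul, ← Units.val_mul, inv_mul_cancel]; simp
      have h2 := congrArg v h1
      rw [map_mul, ha.2, mul_one, map_one] at h2
      exact h2
    refine ⟨fun i j => ?_, hd⟩
    have hdi : v (a.val.det)⁻¹ = 1 := by rw [map_inv₀, ha.2, inv_one]
    fin_cases i <;> fin_cases j
    · show v ((a⁻¹).val 0 0) ≤ 1
      rw [inv_00, map_mul, hdi, one_mul]; exact ha.1 _ _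
    · show v ((a⁻¹).val 0 1) ≤ 1
      rw [inv_01, Valuation.map_neg, map_mul, hdi, one_mul]; exact ha.1 _ _
    · show v ((a⁻¹).val 1 0) ≤ 1
      rw [inv_10, Valuation.map_neg, map_mul, hdi, one_mul]; exact ha.1 _ _
    · show v ((a⁻¹).val 1 1) ≤ 1
      rw [inv_11, map_mul, hdi, one_mul]; exact ha.1 _ _

lemma mem_GLint {v : Valuation F ℤᵐ⁰} {g : GL (Fin 2) F} :
    g ∈ GLint v ↔ (∀ i j, v (g.val i j) ≤ 1) ∧ v g.val.det = 1 := Iff.rfl

/-- The principal congruence subgroup of level `m` of `GL₂(O)`. -/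
def Kc (v : Valuation F ℤᵐ⁰) (m : ℕ) : Subgroup (GL (Fin 2) F) where
  carrier := {g | g ∈ GLint v ∧ ∀ i j, v (g.val i j - (1 : Matrix (Fin 2) (Fin 2) F) i j) ≤
    exp (-(m : ℤ))}
  one_mem' := ⟨one_mem _, by simp⟩
  mul_mem' {a b} ha hb := by
    refine ⟨mul_mem ha.1 hb.1, fun i j => ?_⟩
    have h1 : (a * b).val i j - (1 : Matrix (Fin 2) (Fin 2) F) i j =
        (a.val i 0 - (1 : Matrix (Fin 2) (Fin 2) F) i 0) * b.val 0 j +
        (a.val i 1 - (1 : Matrix (Fin 2) (Fin 2) F) i 1) * b.val 1 j +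
        (b.val i j - (1 : Matrix (Fin 2) (Fin 2) F) i j) := by
      rw [mul_val_ij]
      rcases (by omega : i = 0 ∨ i = 1) with rfl | rfl <;>
        rcases (by omega : j = 0 ∨ j = 1) with rfl | rfl <;> simp <;> ring
    rw [h1, ← mem_PP]
    refine add_mem (add_mem ?_ ?_) (hb.2 i j)
    · simpa using mul_mem_PP (mem_PP.mpr (ha.2 i 0)) (mem_PP_zero.mpr (hb.1.1 0 j))
    · simpa using mul_mem_PP (mem_PP.mpr (ha.2 i 1)) (mem_PP_zero.mpr (hb.1.1 1 j))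
  inv_mem' {a} ha := by
    refine ⟨inv_mem ha.1, fun i j => ?_⟩
    have h2 : (a⁻¹ * a).val i j = (1 : Matrix (Fin 2) (Fin 2) F) i j := by
      rw [inv_mul_cancel]; rfl
    rw [mul_val_ij] at h2
    have h1 : (a⁻¹).val i j - (1 : Matrix (Fin 2) (Fin 2) F) i j =
        -((a⁻¹).val i 0 * (a.val 0 j - (1 : Matrix (Fin 2) (Fin 2) F) 0 j) +
        (a⁻¹).val i 1 * (a.val 1 j - (1 : Matrix (Fin 2) (Fin 2) F) 1 j)) := by
      rw [← h2]
      rcases (by omega : i = 0 ∨ i = 1) with rfl | rfl <;>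
        rcases (by omega : j = 0 ∨ j = 1) with rfl | rfl <;> simp <;> ring
    rw [h1, ← mem_PP]
    have hi := (inv_mem ha.1 : a⁻¹ ∈ GLint v)
    refine neg_mem (add_mem ?_ ?_)
    · simpa using mul_mem_PP (mem_PP_zero.mpr (hi.1 i 0)) (mem_PP.mpr (ha.2 0 j))
    · simpa using mul_mem_PP (mem_PP_zero.mpr (hi.1 i 1)) (mem_PP.mpr (ha.2 1 j))

lemma mem_Kc {v : Valuation F ℤᵐ⁰} {m : ℕ} {g : GL (Fin 2) F} :
    g ∈ Kc v m ↔ g ∈ GLint v ∧ ∀ i j, v (g.val i j - (1 : Matrix (Fin 2) (Fin 2) F) i j) ≤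
    exp (-(m : ℤ)) := Iff.rfl

lemma Kc_le_GLint (v : Valuation F ℤᵐ⁰) (m : ℕ) : Kc v m ≤ GLint v := fun _ h => h.1

lemma Kc_anti (v : Valuation F ℤᵐ⁰) {m n : ℕ} (h : m ≤ n) : Kc v n ≤ Kc v m := by
  intro g hg
  refine ⟨hg.1, fun i j => (hg.2 i j).trans ?_⟩
  rw [exp_le_exp]; omega

lemma Kc_zero (v : Valuation F ℤᵐ⁰) : Kc v 0 = GLint v := by
  refine le_antisymm (Kc_le_GLint v 0) fun g hg => ⟨hg, fun i j => ?_⟩
  rw [← mem_PP]
  refine sub_mem ?_ ?_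
  · simpa [mem_PP] using hg.1 i j
  · have := (one_mem (GLint v) : (1 : GL (Fin 2) F) ∈ GLint v).1 i j
    simpa [mem_PP] using this

/-- The congruence subgroup of level `m` is normalized by `GL₂(O)`. -/
lemma Kc_conj (v : Valuation F ℤᵐ⁰) (m : ℕ) {k g : GL (Fin 2) F} (hk : k ∈ GLint v)
    (hg : g ∈ Kc v m) : k * g * k⁻¹ ∈ Kc v m := by
  refine ⟨mul_mem (mul_mem hk hg.1) (inv_mem hk), fun i j => ?_⟩
  have hi := (inv_mem hk : k⁻¹ ∈ GLint v)
  have h1 : (k * k⁻¹).val i j = (1 : Matrix (Fin 2) (Fin 2) F) i j := by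
    rw [mul_inv_cancel]; rfl
  rw [mul_val_ij] at h1
  have h2 : (k * g * k⁻¹).val i j - (1 : Matrix (Fin 2) (Fin 2) F) i j =
      (k.val i 0 * (g.val 0 0 - (1 : Matrix (Fin 2) (Fin 2) F) 0 0) +
        k.val i 1 * (g.val 1 0 - (1 : Matrix (Fin 2) (Fin 2) F) 1 0)) * (k⁻¹).val 0 j +
      (k.val i 0 * (g.val 0 1 - (1 : Matrix (Fin 2) (Fin 2) F) 0 1) +
        k.val i 1 * (g.val 1 1 - (1 : Matrix (Fin 2) (Fin 2) F) 1 1)) * (k⁻¹).val 1 j := by
    rw [← h1, mul_val_ij (k * g), mul_val_ij k g, mul_val_ij k g]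
    simp
    ring
  rw [h2, ← mem_PP]
  have e (a b : Fin 2) : k.val i a * (g.val a b - (1 : Matrix (Fin 2) (Fin 2) F) a b) ∈
      PP v (-(m : ℤ)) := by
    simpa using mul_mem_PP (mem_PP_zero.mpr (hk.1 i a)) (mem_PP.mpr (hg.2 a b))
  refine add_mem ?_ ?_
  · simpa using mul_mem_PP (add_mem (e 0 0) (e 1 0)) (mem_PP_zero.mpr (hi.1 0 j))
  · simpa using mul_mem_PP (add_mem (e 0 1) (e 1 1)) (mem_PP_zero.mpr (hi.1 1 j))

/-- The Iwahori-type subgroup `{g ∈ GL₂(O) : g₂₁ ∈ 𝔭^m}`. -/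
def Iw (v : Valuation F ℤᵐ⁰) (m : ℕ) : Subgroup (GL (Fin 2) F) where
  carrier := {g | g ∈ GLint v ∧ v (g.val 1 0) ≤ exp (-(m : ℤ))}
  one_mem' := ⟨one_mem _, by simp⟩
  mul_mem' {a b} ha hb := by
    refine ⟨mul_mem ha.1 hb.1, ?_⟩
    rw [mul_val_ij, ← mem_PP]
    refine add_mem ?_ ?_
    · simpa using mul_mem_PP (mem_PP.mpr ha.2) (mem_PP_zero.mpr (hb.1.1 0 0))
    · simpa using mul_mem_PP (mem_PP_zero.mpr (ha.1.1 1 1)) (mem_PP.mpr hb.2)
  inv_mem' {a} ha := by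
    refine ⟨inv_mem ha.1, ?_⟩
    rw [inv_10, Valuation.map_neg, map_mul, map_inv₀, ha.1.2, inv_one, one_mul]
    exact ha.2

lemma mem_Iw {v : Valuation F ℤᵐ⁰} {m : ℕ} {g : GL (Fin 2) F} :
    g ∈ Iw v m ↔ g ∈ GLint v ∧ v (g.val 1 0) ≤ exp (-(m : ℤ)) := Iff.rfl

lemma Iw_le_GLint (v : Valuation F ℤᵐ⁰) (m : ℕ) : Iw v m ≤ GLint v := fun _ h => h.1

lemma Iw_anti (v : Valuation F ℤᵐ⁰) {m n : ℕ} (h : m ≤ n) : Iw v n ≤ Iw v m := by
  intro g hg
  refine ⟨hg.1, hg.2.trans ?_⟩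
  rw [exp_le_exp]; omega

lemma Kc_le_Iw (v : Valuation F ℤᵐ⁰) (m : ℕ) : Kc v m ≤ Iw v m := by
  intro g hg
  refine ⟨hg.1, ?_⟩
  have := hg.2 1 0
  simpa using this

lemma up_mem_GLint {v : Valuation F ℤᵐ⁰} {x : F} (hx : v x ≤ 1) : up x ∈ GLint v := by
  refine ⟨fun i j => ?_, by simp⟩
  fin_cases i <;> fin_cases j <;> simp [hx]

lemma lo_mem_GLint {v : Valuation F ℤᵐ⁰} {x : F} (hx : v x ≤ 1) : lo x ∈ GLint v := by
  refine ⟨fun i j => ?_, by simp⟩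
  fin_cases i <;> fin_cases j <;> simp [hx]

lemma dg_mem_GLint {v : Valuation F ℤᵐ⁰} {a d : Fˣ} (ha : v (a : F) = 1) (hd : v (d : F) = 1) :
    dg a d ∈ GLint v := by
  refine ⟨fun i j => ?_, by simp [ha, hd]⟩
  fin_cases i <;> fin_cases j <;> simp [ha, hd]

lemma w0_mem_GLint (v : Valuation F ℤᵐ⁰) : (w0 : GL (Fin 2) F) ∈ GLint v := by
  refine ⟨fun i j => ?_, by simp⟩
  fin_cases i <;> fin_cases j <;> simp

lemma up_mem_Iw {v : Valuation F ℤᵐ⁰} {x : F} (hx : v x ≤ 1) (m : ℕ) : up x ∈ Iw v m :=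
  ⟨up_mem_GLint hx, by simp⟩

lemma dg_mem_Iw {v : Valuation F ℤᵐ⁰} {a d : Fˣ} (ha : v (a : F) = 1) (hd : v (d : F) = 1)
    (m : ℕ) : dg a d ∈ Iw v m :=
  ⟨dg_mem_GLint ha hd, by simp⟩

lemma lo_mem_Iw {v : Valuation F ℤᵐ⁰} {x : F} {m : ℕ} (hx : v x ≤ exp (-(m : ℤ))) :
    lo x ∈ Iw v m := by
  refine ⟨lo_mem_GLint (hx.trans ?_), by simpa using hx⟩
  rw [← exp_zero, exp_le_exp]; simp

end Run7.h634.L
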