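import Pool.Agent.Run7.h634.L.Loc

/-!
# Cosets of the Iwahori subgroup and the decomposition `G = ⋃ K diag(1, p^n) I Z`
-/

namespace Run7.h634.L

open WithZero

/-- A discretely valued field with a uniformizer and a field of representatives of the residue
field. -/
structure LocD (F k : Type*) [Field F] where
  v : Valuation F ℤᵐ⁰
  p : Fˣ
  hp : v (p : F) = exp (-1)
  c : k → F
  hc_le : ∀ a, v (c a) ≤ 1
  hres : ∀ x, v x ≤ 1 → ∃ a : k, v (x - c a) ≤ exp (-1)
  hinj : ∀ a b, v (c a - c b) ≤ exp (-1) → a = b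

/-- finiteness of all the residue rings -/
def FinRes {F : Type*} [Field F] (v : Valuation F ℤᵐ⁰) : Prop :=
  ∀ m : ℕ, ∃ R : Finset F, ∀ x, v x ≤ 1 → ∃ r ∈ R, v (x - r) ≤ exp (-(m : ℤ))

section

variable {F : Type*} [Field F]

lemma Kc_of_congr {v : Valuation F ℤᵐ⁰} {m : ℕ} {g h : GL (Fin 2) F} (hg : g ∈ GLint v)
    (hh : h ∈ GLint v) (hgh : ∀ i j, v (g.val i j - h.val i j) ≤ exp (-(m : ℤ))) :
    g⁻¹ * h ∈ Kc v m := by
  refine ⟨mul_mem (inv_mem hg) hh, fun i j => ?_⟩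
  have hi := (inv_mem hg : g⁻¹ ∈ GLint v)
  have h1 : (g⁻¹ * g).val i j = (1 : Matrix (Fin 2) (Fin 2) F) i j := by
    rw [inv_mul_cancel]; rfl
  rw [← h1, mul_val_ij, mul_val_ij, ← mem_PP]
  have e (a : Fin 2) : (g⁻¹).val i a * (h.val a j - g.val a j) ∈ PP v (-(m : ℤ)) := by
    have h2 : v (h.val a j - g.val a j) ≤ exp (-(m : ℤ)) := by
      rw [Valuation.map_sub_swap]; exact hgh a j
    simpa using mul_mem_PP (mem_PP_zero.mpr (hi.1 i a)) (mem_PP.mpr h2)
  have h3 : (g⁻¹).val i 0 * h.val 0 j + (g⁻¹).val i 1 * h.val 1 j -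
      ((g⁻¹).val i 0 * g.val 0 j + (g⁻¹).val i 1 * g.val 1 j) =
      (g⁻¹).val i 0 * (h.val 0 j - g.val 0 j) + (g⁻¹).val i 1 * (h.val 1 j - g.val 1 j) := by
    ring
  rw [h3]
  exact add_mem (e 0) (e 1)

theorem finiteIndex_Kc {v : Valuation F ℤᵐ⁰} (hv : FinRes v) (m : ℕ) :
    ((Kc v m).subgroupOf (GLint v)).FiniteIndex := by
  classical
  obtain ⟨R, hR⟩ := hv m
  choose r hrR hr using hR
  let f : (GLint v) ⧸ ((Kc v m).subgroupOf (GLint v)) → (Fin 2 → Fin 2 → R) :=
    fun c i j => ⟨r _ (c.out.2.1 i j), hrR _ _⟩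
  have hf : Function.Injective f := by
    intro c c' hcc
    have h1 : (QuotientGroup.mk c.out : (GLint v) ⧸ ((Kc v m).subgroupOf (GLint v))) =
        QuotientGroup.mk c'.out := by
      rw [QuotientGroup.eq]
      rw [Subgroup.mem_subgroupOf]
      refine Kc_of_congr c.out.2 c'.out.2 fun i j => ?_
      have h2 : (f c i j : F) = f c' i j := by rw [hcc]
      have h3 := hr _ (c.out.2.1 i j)
      have h4 := hr _ (c'.out.2.1 i j)
      have h5 : c.out.1.val i j - c'.out.1.val i j =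
          (c.out.1.val i j - r _ (c.out.2.1 i j)) - (c'.out.1.val i j - r _ (c'.out.2.1 i j)) := by
        have h6 : r _ (c.out.2.1 i j) = r _ (c'.out.2.1 i j) := h2
        rw [h6]; ring
      rw [h5, ← mem_PP]
      exact sub_mem h3 h4
    rw [QuotientGroup.out_eq', QuotientGroup.out_eq'] at h1
    exact h1
  have : Finite ((GLint v) ⧸ ((Kc v m).subgroupOf (GLint v))) := Finite.of_injective f hf
  exact Subgroup.finiteIndex_of_finite_quotient

end

namespace LocD

variable {F k : Type*} [Field F] (D : LocD F k)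

include D in
lemma nonempty : Nonempty k := ⟨(D.hres 0 (by simp)).choose⟩

/-- representatives of `K / I` -/
def rep : Option k → GL (Fin 2) F
  | none => 1
  | some a => up (D.c a) * w0

@[simp] lemma rep_none : D.rep none = 1 := rfl
@[simp] lemma rep_some (a : k) : D.rep (some a) = up (D.c a) * w0 := rfl

lemma rep_mem (j : Option k) : D.rep j ∈ GLint D.v := by
  cases j with
  | none => exact one_mem _
  | some a => exact mul_mem (up_mem_GLint (D.hc_le a)) (w0_mem_GLint _)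

lemma lt_one_iff {x : F} : D.v x < 1 ↔ D.v x ≤ exp (-1) := by
  constructor
  · intro h
    by_cases hx : D.v x = 0
    · rw [hx]; exact zero_le
    · rw [← exp_log hx] at h ⊢
      rw [← exp_zero, exp_lt_exp] at h
      rw [exp_le_exp]; omega
  · intro h
    refine lt_of_le_of_lt h ?_
    rw [← exp_zero, exp_lt_exp]; omega

lemma exists_rep {g : GL (Fin 2) F} (hg : g ∈ GLint D.v) :
    ∃ j : Option k, (D.rep j)⁻¹ * g ∈ Iw D.v 1 := by
  by_cases h : D.v (g.val 1 0) ≤ exp (-((1 : ℕ) : ℤ))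
  · refine ⟨none, ?_⟩
    rw [rep_none, inv_one, one_mul]
    exact ⟨hg, h⟩
  · have h1 : D.v (g.val 1 0) = 1 := by
      refine le_antisymm (hg.1 1 0) ?_
      by_contra hlt
      exact h (by simpa using D.lt_one_iff.mp (not_le.mp hlt))
    have hne : g.val 1 0 ≠ 0 := by
      intro h0; rw [h0, map_zero] at h1; exact zero_ne_one h1
    obtain ⟨a, ha⟩ := D.hres (g.val 0 0 / g.val 1 0) (by
      rw [map_div₀, h1, div_one]; exact hg.1 0 0)
    refine ⟨some a, mul_mem (inv_mem (D.rep_mem _)) hg, ?_⟩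
    have h2 : ((D.rep (some a))⁻¹ * g).val 1 0 = g.val 0 0 - D.c a * g.val 1 0 := by
      rw [rep_some, _root_.mul_inv_rev, up_inv, w0_inv, mul_assoc, mul_val_ij, mul_val_ij, mul_val_ij]
      simp; ring
    rw [h2]
    have h3 : g.val 0 0 - D.c a * g.val 1 0 = (g.val 0 0 / g.val 1 0 - D.c a) * g.val 1 0 := by
      field_simp
    rw [h3, map_mul, h1, mul_one]
    simpa using ha

lemma rep_unique {j j' : Option k} (h : (D.rep j)⁻¹ * D.rep j' ∈ Iw D.v 1) : j = j' := by
  have key : D.v (((D.rep j)⁻¹ * D.rep j').val 1 0) ≤ exp (-1) := by simpa using h.2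
  have hlt : exp (-1 : ℤ) < (1 : ℤᵐ⁰) := by rw [← exp_zero, exp_lt_exp]; omega
  cases j with
  | none =>
    cases j' with
    | none => rfl
    | some b =>
      exfalso
      have h2 : ((D.rep none)⁻¹ * D.rep (some b)).val 1 0 = 1 := by simp
      rw [h2, map_one] at key
      exact absurd key (not_le.mpr hlt)
  | some a =>
    cases j' with
    | none =>
      exfalso
      have h2 : ((D.rep (some a))⁻¹ * D.rep none).val 1 0 = 1 := by
        rw [rep_some, rep_none, mul_one, _root_.mul_inv_rev, up_inv, w0_inv]; simp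
      rw [h2, map_one] at key
      exact absurd key (not_le.mpr hlt)
    | some b =>
      have h2 : ((D.rep (some a))⁻¹ * D.rep (some b)).val 1 0 = D.c b - D.c a := by
        rw [rep_some, rep_some, _root_.mul_inv_rev, up_inv, w0_inv, mul_assoc, ← mul_assoc (up _) (up _),
          up_mul]
        simp; ring
      rw [h2] at key
      rw [D.hinj b a key]

/-- Sums over `K / I` are invariant under `K`. -/
theorem sum_rep [Fintype k] {M : Type*} [AddCommMonoid M] (φ : GL (Fin 2) F → M)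
    (hφ : ∀ g ∈ GLint D.v, ∀ i ∈ Iw D.v 1, φ (g * i) = φ g) {g : GL (Fin 2) F}
    (hg : g ∈ GLint D.v) : ∑ j, φ (g * D.rep j) = ∑ j, φ (D.rep j) := by
  have h1 : ∀ j, ∃ j', (D.rep j')⁻¹ * (g * D.rep j) ∈ Iw D.v 1 :=
    fun j => D.exists_rep (mul_mem hg (D.rep_mem j))
  choose s hs using h1
  have hinj : Function.Injective s := by
    intro j j' hjj
    apply D.rep_unique
    have h2 := mul_mem (inv_mem (hs j)) (hs j')
    rw [hjj] at h2
    have h3 : ((D.rep (s j'))⁻¹ * (g * D.rep j))⁻¹ * ((D.rep (s j'))⁻¹ * (g * D.rep j')) =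
        (D.rep j)⁻¹ * D.rep j' := by group
    rwa [h3] at h2
  have hbij : Function.Bijective s := Finite.injective_iff_bijective.mp hinj
  have h4 : ∀ j, φ (g * D.rep j) = φ (D.rep (s j)) := by
    intro j
    have := hφ (D.rep (s j)) (D.rep_mem _) _ (hs j)
    rw [← this]; congr 1; group
  simp only [h4]
  exact Fintype.sum_bijective s hbij _ _ (fun _ => rfl)

lemma p_pow_val (n : ℤ) : D.v ((D.p ^ n : Fˣ) : F) = exp (-n) := by
  rw [Units.val_zpow_eq_zpow_val, map_zpow₀, D.hp, ← WithZero.exp_zsmul]; simp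

lemma exists_unit_mul (d : Fˣ) : ∃ (n : ℤ) (u : Fˣ), D.v (u : F) = 1 ∧ d = D.p ^ n * u := by
  have hd : D.v (d : F) ≠ 0 := (Valuation.ne_zero_iff _).mpr d.ne_zero
  refine ⟨-log (D.v (d : F)), D.p ^ (log (D.v (d : F))) * d, ?_, ?_⟩
  · rw [Units.val_mul, map_mul, D.p_pow_val]
    nth_rewrite 2 [← exp_log hd]
    rw [← exp_add]; simp
  · rw [← mul_assoc, ← zpow_add]; simp

/-- the decomposition `G = ⋃ K diag(1, d) I Z` -/
theorem cartan (g : GL (Fin 2) F) : ∃ κ ∈ GLint D.v, ∃ i ∈ Iw D.v 1, ∃ z d : Fˣ,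
    g = κ * dg 1 d * i * dg z z := by
  -- make the upper right entry zero
  have stepA : ∃ κ ∈ GLint D.v, (κ * g).val 0 1 = 0 := by
    by_cases h : D.v (g.val 0 1) ≤ D.v (g.val 1 1)
    · have hne : g.val 1 1 ≠ 0 := by
        intro h0
        rw [h0, map_zero] at h
        have h1 : g.val 0 1 = 0 := (map_eq_zero _).mp (le_antisymm h zero_le)
        have := det_ne g
        rw [h0, h1] at this; simp at this
      refine ⟨up (-(g.val 0 1 / g.val 1 1)), up_mem_GLint ?_, ?_⟩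
      · rw [Valuation.map_neg, map_div₀]
        exact div_le_one_of_le₀ h zero_le
      · rw [mul_val_ij]; simp; field_simp; ring
    · have h' := le_of_lt (not_le.mp h)
      have hne : g.val 0 1 ≠ 0 := by
        intro h0
        rw [h0, map_zero] at h
        exact h zero_le
      refine ⟨up (-(g.val 1 1 / g.val 0 1)) * w0, mul_mem (up_mem_GLint ?_) (w0_mem_GLint _), ?_⟩
      · rw [Valuation.map_neg, map_div₀]
        exact div_le_one_of_le₀ h' zero_le
      · rw [mul_assoc, mul_val_ij, mul_val_ij, mul_val_ij]; simp; field_simp; ring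
  obtain ⟨κ₁, hκ₁, h01⟩ := stepA
  have ha : (κ₁ * g).val 0 0 ≠ 0 := by
    intro h0
    have := det_ne (κ₁ * g)
    rw [h0, h01] at this; simp at this
  have hd : (κ₁ * g).val 1 1 ≠ 0 := by
    intro h0
    have := det_ne (κ₁ * g)
    rw [h0, h01] at this; simp at this
  -- the matrix (1, 0; β, δ)
  obtain ⟨z, hz⟩ : ∃ z : Fˣ, (z : F) = (κ₁ * g).val 0 0 := ⟨Units.mk0 _ ha, rfl⟩
  obtain ⟨δ, hδ⟩ : ∃ δ : Fˣ, (δ : F) = (κ₁ * g).val 1 1 / (κ₁ * g).val 0 0 :=
    ⟨Units.mk0 _ (div_ne_zero hd ha), rfl⟩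
  set β : F := (κ₁ * g).val 1 0 / (κ₁ * g).val 0 0 with hβ
  have hg1 : κ₁ * g = dg 1 δ * lo (β / δ) * dg z z := by
    have hδ0 : (δ : F) ≠ 0 := δ.ne_zero
    apply gl_ext
    · rw [mul_val_ij (dg 1 δ * lo (β / δ))]; simp [mul_val_ij, -Units.val_mul, hz]
    · rw [mul_val_ij (dg 1 δ * lo (β / δ)), h01]; simp [mul_val_ij, -Units.val_mul]
    · rw [mul_val_ij (dg 1 δ * lo (β / δ))]
      have h1 : (κ₁ * g).val 1 0 = β * (κ₁ * g).val 0 0 := by rw [hβ]; field_simp
      rw [h1, ← hz, mul_val_ij, mul_val_ij]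
      simp
      field_simp
    · rw [mul_val_ij (dg 1 δ * lo (β / δ))]
      have h1 : (κ₁ * g).val 1 1 = δ * (κ₁ * g).val 0 0 := by rw [hδ]; field_simp
      rw [h1, ← hz, mul_val_ij, mul_val_ij]
      simp
  have hg2 : g = κ₁⁻¹ * (dg 1 δ * lo (β / δ) * dg z z) := by rw [← hg1]; group
  by_cases h1 : D.v β ≤ 1
  · refine ⟨κ₁⁻¹ * lo β, mul_mem (inv_mem hκ₁) (lo_mem_GLint h1), 1, one_mem _, z, δ, ?_⟩
    rw [hg2, dg_mul_lo]
    have hx : (δ : F) * (β / δ) * ((1⁻¹ : Fˣ) : F) = β := by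
      have hδ0 : (δ : F) ≠ 0 := δ.ne_zero
      simp; field_simp
    rw [hx]; group
  · have hβ0 : β ≠ 0 := by intro h0; rw [h0, map_zero] at h1; exact h1 zero_le
    by_cases h2 : D.v (β / δ) ≤ exp (-1)
    · refine ⟨κ₁⁻¹, inv_mem hκ₁, lo (β / δ), lo_mem_Iw (by simpa using h2), z, δ, ?_⟩
      rw [hg2]; group
    · have h3 : D.v ((δ : F) / β) ≤ 1 := by
        have h4 : ¬ D.v (β / δ) < 1 := fun h => h2 (D.lt_one_iff.mp h)
        have h5 := not_lt.mp h4
        rw [← inv_div, map_inv₀]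
        exact inv_le_one_of_one_le₀ h5
      have h4 : D.v β⁻¹ ≤ 1 := by
        rw [map_inv₀]; exact inv_le_one_of_one_le₀ (le_of_lt (not_le.mp h1))
      obtain ⟨b, hb⟩ : ∃ b : Fˣ, (b : F) = β := ⟨Units.mk0 _ hβ0, rfl⟩
      have hδ0 : (δ : F) ≠ 0 := δ.ne_zero
      have hbi : ((b⁻¹ : Fˣ) : F) = β⁻¹ := by rw [Units.val_inv_eq_inv_val, hb]
      have hdd : ((-(δ * b⁻¹ * b⁻¹) : Fˣ) : F) = -(δ * β⁻¹ * β⁻¹) := by
        rw [Units.val_neg, Units.val_mul, Units.val_mul, hbi]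
      generalize -(δ * b⁻¹ * b⁻¹) = d' at hdd
      have h5 : (dg 1 δ * lo (β / δ) : GL (Fin 2) F) =
          w0 * lo β⁻¹ * dg 1 d' * dg b b * up (δ / β) := by
        apply gl_ext
        · simp [mul_val_ij, -Units.val_mul, hb, hbi, hdd]
          try field_simp
        · simp [mul_val_ij, -Units.val_mul, hb, hbi, hdd]
          try field_simp
          try ring
        · simp [mul_val_ij, -Units.val_mul, hb, hbi, hdd]
          try field_simp
        · simp [mul_val_ij, -Units.val_mul, hb, hbi, hdd]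
          try field_simp
      refine ⟨κ₁⁻¹ * (w0 * lo β⁻¹), mul_mem (inv_mem hκ₁)
        (mul_mem (w0_mem_GLint _) (lo_mem_GLint h4)), up (δ / β), up_mem_Iw h3 1, b * z,
        d', ?_⟩
      have hc := sc_comm b (up (δ / β))
      rw [hg2, h5]
      calc κ₁⁻¹ * (w0 * lo β⁻¹ * dg 1 d' * dg b b * up (δ / β) * dg z z)
          = κ₁⁻¹ * (w0 * lo β⁻¹) * dg 1 d' * (dg b b * up (δ / β)) * dg z z := by group
        _ = κ₁⁻¹ * (w0 * lo β⁻¹) * dg 1 d' * up (δ / β) * (dg b b * dg z z) := by rw [hc]; group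
        _ = _ := by rw [dg_mul]

end LocD

end Run7.h634.L
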