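import Mathlib

/-!
# Elementary representation theory over the complex numbers

Stable submodules, irreducibility, subquotients, quotients, and the averaging lemma
a vector of `V(J)` is killed by a finite sum of translates by `J`.
-/

namespace Run7.h634.L

/-- `W` is stable under all operators of the representation `ρ`. -/
def Stable {G : Type*} [Group G] {V : Type*} [AddCommGroup V] [Module ℂ V]
    (ρ : Representation ℂ G V) (W : Submodule ℂ V) : Prop :=
  ∀ g : G, ∀ b ∈ W, ρ g b ∈ W

/-- Irreducibility: nonzero and without proper nonzero stable subspaces. -/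
def IsIrred {G : Type*} [Group G] {V : Type*} [AddCommGroup V] [Module ℂ V]
    (ρ : Representation ℂ G V) : Prop :=
  Nontrivial V ∧ ∀ W : Submodule ℂ V, Stable ρ W → W = ⊥ ∨ W = ⊤

/-- `σ` is (isomorphic to) a subquotient of `ρ`: there are a stable subspace `B` of `ρ` and a
surjective equivariant linear map from `B` onto the space of `σ`. -/
def IsSubquotient {G : Type*} [Group G] {V U : Type*} [AddCommGroup V] [Module ℂ V]
    [AddCommGroup U] [Module ℂ U]
    (ρ : Representation ℂ G V) (σ : Representation ℂ G U) : Prop :=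
  ∃ (B : Submodule ℂ V) (hB : Stable ρ B) (p : B →ₗ[ℂ] U),
    Function.Surjective p ∧ ∀ (g : G) (b : B), p ⟨ρ g b, hB g b b.2⟩ = σ g (p b)

section

variable {G : Type*} [Group G] {V : Type*} [AddCommGroup V] [Module ℂ V]
  {U : Type*} [AddCommGroup U] [Module ℂ U]

/-- Restriction of a representation to a stable subspace. -/
def subRep (ρ : Representation ℂ G V) (W : Submodule ℂ V) (h : Stable ρ W) :
    Representation ℂ G W where
  toFun g := (ρ g).restrict (fun b hb => h g b hb)
  map_one' := by ext; simp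
  map_mul' x y := by ext; simp

@[simp] lemma subRep_apply (ρ : Representation ℂ G V) (W : Submodule ℂ V) (h : Stable ρ W)
    (g : G) (b : W) : ((subRep ρ W h g b : W) : V) = ρ g b := rfl

/-- The quotient of a representation by a stable subspace. -/
def quotRep (ρ : Representation ℂ G V) (W : Submodule ℂ V) (h : Stable ρ W) :
    Representation ℂ G (V ⧸ W) where
  toFun g := W.mapQ W (ρ g) (fun b hb => h g b hb)
  map_one' := by ext; simp
  map_mul' x y := by ext; simp

@[simp] lemma quotRep_mk (ρ : Representation ℂ G V) (W : Submodule ℂ V) (h : Stable ρ W)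
    (g : G) (b : V) : quotRep ρ W h g (Submodule.Quotient.mk b) = Submodule.Quotient.mk (ρ g b) :=
  rfl

@[simp] lemma quotRep_mkQ (ρ : Representation ℂ G V) (W : Submodule ℂ V) (h : Stable ρ W)
    (g : G) (b : V) : quotRep ρ W h g (W.mkQ b) = W.mkQ (ρ g b) :=
  rfl

lemma Stable.comap_mkQ {ρ : Representation ℂ G V} {W : Submodule ℂ V} (h : Stable ρ W)
    {M : Submodule ℂ (V ⧸ W)} (hM : Stable (quotRep ρ W h) M) : Stable ρ (M.comap W.mkQ) := by
  intro g b hb
  have := hM g _ hb
  simpa using this

/-- Existence of irreducible quotients of representations which are cyclic modulo `N`. -/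
theorem exists_irr_quot (ρ : Representation ℂ G V) (N : Submodule ℂ V) (hN : Stable ρ N)
    (h : V) (hh : h ∉ N)
    (gen : ∀ W : Submodule ℂ V, Stable ρ W → N ≤ W → h ∈ W → W = ⊤) :
    ∃ (M : Submodule ℂ V) (hM : Stable ρ M), N ≤ M ∧ h ∉ M ∧ IsIrred (quotRep ρ M hM) := by
  obtain ⟨M, hNM, hmax⟩ := zorn_le_nonempty₀ {M : Submodule ℂ V | Stable ρ M ∧ h ∉ M}
    (by
      intro c hc hchain y hy
      refine ⟨sSup c, ⟨?_, ?_⟩, fun z hz => le_sSup hz⟩
      · intro g b hb
        rw [Submodule.mem_sSup_of_directed ⟨y, hy⟩ hchain.directedOn] at hb ⊢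
        obtain ⟨z, hz, hbz⟩ := hb
        exact ⟨z, hz, (hc hz).1 g b hbz⟩
      · intro hb
        rw [Submodule.mem_sSup_of_directed ⟨y, hy⟩ hchain.directedOn] at hb
        obtain ⟨z, hz, hbz⟩ := hb
        exact (hc hz).2 hbz)
    N ⟨hN, hh⟩
  have hM : Stable ρ M := hmax.prop.1
  have hhM : h ∉ M := hmax.prop.2
  refine ⟨M, hM, hNM, hhM, ?_, ?_⟩
  · refine ⟨⟨M.mkQ h, 0, ?_⟩⟩
    intro h0
    exact hhM ((Submodule.Quotient.mk_eq_zero M).mp h0)
  · intro W hW
    have hst := Stable.comap_mkQ hM hW
    have hle : M ≤ W.comap M.mkQ := by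
      intro b hb
      have : M.mkQ b = 0 := (Submodule.Quotient.mk_eq_zero M).mpr hb
      simp only [Submodule.mem_comap, this, zero_mem]
    by_cases hmem : h ∈ W.comap M.mkQ
    · right
      have htop := gen _ hst (hNM.trans hle) hmem
      rw [eq_top_iff]
      intro x _
      obtain ⟨b, rfl⟩ := M.mkQ_surjective x
      have : b ∈ W.comap M.mkQ := by rw [htop]; trivial
      exact this
    · left
      have heq : W.comap M.mkQ = M := le_antisymm (hmax.le_of_ge ⟨hst, hmem⟩ hle) hle
      rw [eq_bot_iff]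
      intro x hx
      obtain ⟨b, rfl⟩ := M.mkQ_surjective x
      have : b ∈ W.comap M.mkQ := hx
      rw [heq] at this
      simpa using this

/-- The span of all `j v - v`. -/
def coin (ρ : Representation ℂ G V) (J : Subgroup G) : Submodule ℂ V :=
  Submodule.span ℂ {x | ∃ j ∈ J, ∃ v, x = ρ j v - v}

lemma sub_mem_coin (ρ : Representation ℂ G V) {J : Subgroup G} {j : G} (hj : j ∈ J) (v : V) :
    ρ j v - v ∈ coin ρ J :=
  Submodule.subset_span ⟨j, hj, v, rfl⟩

/-- Every vector is fixed by a subgroup of finite index. -/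
def FinOrb {J : Type*} [Group J] (ρ : Representation ℂ J V) : Prop :=
  ∀ v : V, ∃ N : Subgroup J, N.FiniteIndex ∧ ∀ j ∈ N, ρ j v = v

/-- averaging over a quotient group, for a vector fixed by the normal subgroup `N`. -/
lemma out_mul_apply {J : Type*} [Group J] (ρ : Representation ℂ J V) (N : Subgroup J)
    [N.Normal] (v : V) (hv : ∀ j ∈ N, ρ j v = v) (j : J) :
    ρ ((QuotientGroup.mk j : J ⧸ N).out) v = ρ j v := by
  obtain ⟨n, hn⟩ := QuotientGroup.mk_out_eq_mul N j
  rw [hn, map_mul, Module.End.mul_apply, hv _ n.2]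

theorem avg_zero {J : Type*} [Group J] (ρ : Representation ℂ J V) (hfin : FinOrb ρ)
    {b : V} (hb : b ∈ coin ρ ⊤) :
    ∃ s : Finset J, s.Nonempty ∧ ∑ j ∈ s, ρ j b = 0 := by
  classical
  have key : ∃ N : Subgroup J, N.Normal ∧ N.FiniteIndex ∧ ∀ N' : Subgroup J, N' ≤ N →
      ∀ [N'.Normal] [N'.FiniteIndex], ∑ᶠ c : J ⧸ N', ρ c.out b = 0 := by
    unfold coin at hb
    induction hb using Submodule.span_induction with
    | mem x hx =>
      obtain ⟨j, _, v, rfl⟩ := hx
      obtain ⟨N, hN, hv⟩ := hfin v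
      refine ⟨N.normalCore, inferInstance, inferInstance, ?_⟩
      intro N' hN' hn hf
      have hv' : ∀ i ∈ N', ρ i v = v := fun i hi => hv i (N.normalCore_le (hN' hi))
      have : Finite (J ⧸ N') := inferInstance
      have : Fintype (J ⧸ N') := Fintype.ofFinite _
      rw [finsum_eq_sum_of_fintype]
      simp only [map_sub, Finset.sum_sub_distrib]
      rw [sub_eq_zero]
      have h1 : ∀ c : J ⧸ N', ρ c.out (ρ j v) = ρ ((c * (QuotientGroup.mk j)).out) v := by
        intro c
        have h2 : c * (QuotientGroup.mk j) = QuotientGroup.mk (c.out * j) := by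
          rw [QuotientGroup.mk_mul, QuotientGroup.out_eq']
        rw [h2, out_mul_apply ρ N' v hv', map_mul, Module.End.mul_apply]
      simp only [h1]
      exact Fintype.sum_equiv (Equiv.mulRight (QuotientGroup.mk j : J ⧸ N')) _ _ (fun c => rfl)
    | zero => exact ⟨⊤, inferInstance, inferInstance, by intros; simp⟩
    | add x y _ _ hx hy =>
      obtain ⟨N₁, h1, h1', h1''⟩ := hx
      obtain ⟨N₂, h2, h2', h2''⟩ := hy
      refine ⟨N₁ ⊓ N₂, inferInstance, inferInstance, ?_⟩
      intro N' hN' hn hf
      have : Finite (J ⧸ N') := inferInstance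
      simp only [map_add]
      rw [finsum_add_distrib (Set.toFinite _) (Set.toFinite _),
        h1'' N' (hN'.trans inf_le_left), h2'' N' (hN'.trans inf_le_right), add_zero]
    | smul a x _ hx =>
      obtain ⟨N₁, h1, h1', h1''⟩ := hx
      refine ⟨N₁, h1, h1', ?_⟩
      intro N' hN' hn hf
      have : Finite (J ⧸ N') := inferInstance
      simp only [map_smul]
      rw [← smul_finsum' a (Set.toFinite _), h1'' N' hN', smul_zero]
  obtain ⟨N, hn, hf, hN⟩ := key
  have h0 := hN N le_rfl
  have : Finite (J ⧸ N) := inferInstance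
  have : Fintype (J ⧸ N) := Fintype.ofFinite _
  rw [finsum_eq_sum_of_fintype] at h0
  refine ⟨Finset.univ.image (fun c : J ⧸ N => c.out), ?_, ?_⟩
  · exact ⟨(1 : J ⧸ N).out, Finset.mem_image_of_mem _ (Finset.mem_univ _)⟩
  · rw [Finset.sum_image]
    · exact h0
    · intro a _ b _ hab
      have hab' : a.out = b.out := hab
      have : (QuotientGroup.mk a.out : J ⧸ N) = QuotientGroup.mk b.out := by rw [hab']
      simpa using this

theorem fixed_coin_zero {J : Type*} [Group J] (ρ : Representation ℂ J V) (hfin : FinOrb ρ)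
    {b : V} (hb : b ∈ coin ρ ⊤) (hfix : ∀ j, ρ j b = b) : b = 0 := by
  obtain ⟨s, hs, h0⟩ := avg_zero ρ hfin hb
  simp only [hfix, Finset.sum_const] at h0
  have hc : (s.card : ℂ) ≠ 0 := by
    exact_mod_cast hs.card_pos.ne'
  have : (s.card : ℂ) • b = 0 := by
    rw [Nat.cast_smul_eq_nsmul]; exact h0
  exact (smul_eq_zero.mp this).resolve_left hc

end

end Run7.h634.L
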