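import Pool.Agent.Run7.h634.L.Loc2
import Pool.Agent.Run7.h634.L.Rep

/-!
# Steinberg vectors
-/

namespace Run7.h634.L

open WithZero

variable {F k : Type*} [Field F] [Fintype k]

/-- A Steinberg vector. -/
structure IsStein (D : LocD F k) {V : Type*} [AddCommGroup V] [Module ℂ V]
    (ρ : Representation ℂ (GL (Fin 2) F) V) (h : V) : Prop where
  iw : ∀ i ∈ Iw D.v 1, ρ i h = h
  sc : ∀ z : Fˣ, ρ (dg z z) h = h
  ww : ρ (ww D.p) h = -h
  sum : ∑ j, ρ (D.rep j) h = 0

namespace IsStein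

variable {D : LocD F k} {V : Type*} [AddCommGroup V] [Module ℂ V]
  {ρ : Representation ℂ (GL (Fin 2) F) V} {h : V}

lemma map {U : Type*} [AddCommGroup U] [Module ℂ U] {σ : Representation ℂ (GL (Fin 2) F) U}
    (hs : IsStein D ρ h) (p : V →ₗ[ℂ] U) (hp : ∀ g v, p (ρ g v) = σ g (p v)) :
    IsStein D σ (p h) where
  iw i hi := by rw [← hp, hs.iw i hi]
  sc z := by rw [← hp, hs.sc z]
  ww := by rw [← hp, hs.ww, map_neg]
  sum := by simp only [← hp]; rw [← map_sum, hs.sum, map_zero]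

/-- the vectors `e m = diag(1, p^m) h` -/
def e (_ : IsStein D ρ h) (m : ℕ) : V := ρ (dg 1 (D.p ^ m)) h

variable (hs : IsStein D ρ h)

lemma e_def (m : ℕ) : hs.e m = ρ (dg 1 (D.p ^ m)) h := rfl

lemma e_zero : hs.e 0 = h := by
  rw [e_def, pow_zero, dg_one, map_one]; rfl

include hs in
lemma sum' : h + ∑ a : k, ρ (up (D.c a) * w0) h = 0 := by
  have := hs.sum
  rw [Fintype.sum_option] at this
  simpa using this

include hs in
lemma q1 : h = ∑ a : k, ρ (lo ((D.p : F) * D.c a) * dg 1 D.p) h := by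
  have h1 := hs.sum'
  have h2 : ρ (Run7.h634.L.ww D.p) (∑ a : k, ρ (up (D.c a) * w0) h) = h := by
    rw [← neg_eq_of_add_eq_zero_right h1, map_neg, hs.ww, neg_neg]
  rw [map_sum] at h2
  rw [← h2]
  refine Finset.sum_congr rfl fun a _ => ?_
  rw [← Module.End.mul_apply, ← map_mul, h2]
  congr 2
  rw [← ww_mul_w0, ← mul_assoc, ← mul_assoc]
  congr 1
  apply gl_ext <;> simp

lemma e_succ (m : ℕ) : hs.e m = ∑ a : k, ρ (lo ((D.p : F) ^ (m + 1) * D.c a)) (hs.e (m + 1)) := by
  rw [e_def]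
  conv_lhs => rw [hs.q1]
  rw [map_sum]
  refine Finset.sum_congr rfl fun a _ => ?_
  rw [e_def, ← Module.End.mul_apply, ← map_mul, ← Module.End.mul_apply, ← map_mul]
  congr 2
  have e1 : ((D.p ^ m : Fˣ) : F) * ((D.p : F) * D.c a) * ((1⁻¹ : Fˣ) : F) =
      (D.p : F) ^ (m + 1) * D.c a := by simp; ring
  rw [← mul_assoc, dg_mul_lo, mul_assoc, dg_mul, e1, one_mul, ← pow_succ]

lemma e_fix (m : ℕ) {i : GL (Fin 2) F} (hi : i ∈ Iw D.v (m + 1)) : ρ i (hs.e m) = hs.e m := by
  have h1 : (dg 1 (D.p ^ m))⁻¹ * i * dg 1 (D.p ^ m) ∈ Iw D.v 1 := by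
    have hv : D.v ((D.p : F) ^ m) = exp (-(m : ℤ)) := by
      rw [map_pow, D.hp, ← WithZero.exp_nsmul]; simp
    have hvi : D.v (((D.p : F) ^ m)⁻¹) = exp (m : ℤ) := by
      rw [map_inv₀, hv, ← exp_neg]; simp
    have e00 : ((dg 1 (D.p ^ m))⁻¹ * i * dg 1 (D.p ^ m)).val 0 0 = i.val 0 0 := by
      rw [dg_inv, mul_val_ij, mul_val_ij, mul_val_ij]; simp
    have e01 : ((dg 1 (D.p ^ m))⁻¹ * i * dg 1 (D.p ^ m)).val 0 1 = i.val 0 1 * (D.p : F) ^ m := by
      rw [dg_inv, mul_val_ij, mul_val_ij, mul_val_ij]; simp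
    have e10 : ((dg 1 (D.p ^ m))⁻¹ * i * dg 1 (D.p ^ m)).val 1 0 =
        ((D.p : F) ^ m)⁻¹ * i.val 1 0 := by
      rw [dg_inv, mul_val_ij, mul_val_ij, mul_val_ij]; simp
    have hp0 : (D.p : F) ^ m ≠ 0 := pow_ne_zero _ D.p.ne_zero
    have e11 : ((dg 1 (D.p ^ m))⁻¹ * i * dg 1 (D.p ^ m)).val 1 1 = i.val 1 1 := by
      rw [dg_inv, mul_val_ij, mul_val_ij, mul_val_ij]; simp; field_simp
    have h10 : D.v (((dg 1 (D.p ^ m))⁻¹ * i * dg 1 (D.p ^ m)).val 1 0) ≤ exp (-1) := by
      rw [e10, ← mem_PP]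
      have := mul_mem_PP (mem_PP.mpr hvi.le) (mem_PP.mpr hi.2)
      refine PP_mono ?_ this
      push_cast; omega
    refine ⟨⟨fun a b => ?_, ?_⟩, by simpa using h10⟩
    · rcases (by omega : a = 0 ∨ a = 1) with rfl | rfl <;>
        rcases (by omega : b = 0 ∨ b = 1) with rfl | rfl
      · rw [e00]; exact hi.1.1 _ _
      · rw [e01, ← mem_PP_zero]
        have := mul_mem_PP (mem_PP_zero.mpr (hi.1.1 0 1)) (mem_PP.mpr hv.le)
        exact PP_mono (by omega) this
      · refine h10.trans ?_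
        rw [← exp_zero, exp_le_exp]; omega
      · rw [e11]; exact hi.1.1 _ _
    · rw [Units.val_mul, Units.val_mul, Matrix.det_mul, Matrix.det_mul, map_mul, map_mul, hi.1.2,
        mul_one, ← map_mul, ← Matrix.det_mul, ← Units.val_mul, inv_mul_cancel]
      simp
  have h2 := hs.iw _ h1
  rw [map_mul, map_mul, Module.End.mul_apply, Module.End.mul_apply, ← e_def] at h2
  have h3 := congrArg (ρ (dg 1 (D.p ^ m))) h2
  rw [← Module.End.mul_apply, ← map_mul, mul_inv_cancel, map_one] at h3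
  exact h3

include hs in
/-- every translate of a Steinberg vector is `± κ e m`. -/
lemma translate (x : GL (Fin 2) F) : ∃ κ ∈ GLint D.v, ∃ m : ℕ,
    ρ x h = ρ κ (hs.e m) ∨ ρ x h = -ρ κ (hs.e m) := by
  obtain ⟨κ, hκ, i, hi, z, d, rfl⟩ := D.cartan x
  obtain ⟨n, u, hu, rfl⟩ := D.exists_unit_mul d
  have h1 : ρ (κ * dg 1 (D.p ^ n * u) * i * dg z z) h = ρ κ (ρ (dg 1 (D.p ^ n)) h) := by
    have h2 : dg 1 (D.p ^ n * u) = dg 1 (D.p ^ n) * dg 1 u := by rw [dg_mul, one_mul]
    rw [h2, map_mul, Module.End.mul_apply, hs.sc, map_mul, Module.End.mul_apply, hs.iw i hi,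
      map_mul, Module.End.mul_apply, map_mul, Module.End.mul_apply,
      hs.iw _ (dg_mem_Iw (by simp) hu 1)]
  rw [h1]
  obtain ⟨m, rfl | rfl⟩ := n.eq_nat_or_neg
  · exact ⟨κ, hκ, m, Or.inl (by rw [e_def, zpow_natCast])⟩
  · cases m with
    | zero => exact ⟨κ, hκ, 0, Or.inl (by rw [e_def]; simp)⟩
    | succ m =>
      refine ⟨κ * w0, mul_mem hκ (w0_mem_GLint _), m, Or.inr ?_⟩
      have h3 : dg 1 (D.p ^ (-((m + 1 : ℕ) : ℤ))) =
          w0 * dg 1 (D.p ^ m) * Run7.h634.L.ww D.p *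
            dg (D.p ^ (-((m + 1 : ℕ) : ℤ))) (D.p ^ (-((m + 1 : ℕ) : ℤ))) := by
        have hP : ((D.p ^ (-((m + 1 : ℕ) : ℤ)) : Fˣ) : F) * (D.p : F) ^ (m + 1) = 1 := by
          rw [zpow_neg, zpow_natCast, ← Units.val_pow_eq_pow_val, ← Units.val_mul,
            inv_mul_cancel, Units.val_one]
        generalize D.p ^ (-((m + 1 : ℕ) : ℤ)) = P at hP
        apply gl_ext
        · simp [mul_val_ij, -Units.val_mul]
          rw [← hP]; ring
        · simp [mul_val_ij, -Units.val_mul]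
        · simp [mul_val_ij, -Units.val_mul]
        · simp [mul_val_ij, -Units.val_mul]
      rw [h3, map_mul, Module.End.mul_apply, hs.sc, map_mul, Module.End.mul_apply, hs.ww, map_neg,
        map_neg, map_mul, Module.End.mul_apply, ← e_def, ← Module.End.mul_apply, ← map_mul]

lemma q_smul (D : LocD F k) {N : Submodule ℂ V} {a b : V} (h : a - (Fintype.card k : ℂ) • b ∈ N)
    (ha : a ∈ N) : b ∈ N := by
  have hne : Nonempty k := D.nonempty
  have hq : (Fintype.card k : ℂ) ≠ 0 := by exact_mod_cast Fintype.card_ne_zero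
  have h1 : (Fintype.card k : ℂ) • b ∈ N := by
    have := N.sub_mem ha h
    simpa using this
  have h2 := N.smul_mem (Fintype.card k : ℂ)⁻¹ h1
  rwa [smul_smul, inv_mul_cancel₀ hq, one_smul] at h2

lemma q_smul' {N : Submodule ℂ V} {a b : V} (h : a - (Fintype.card k : ℂ) • b ∈ N)
    (hb : b ∈ N) : a ∈ N := by
  have := N.add_mem h (N.smul_mem (Fintype.card k : ℂ) hb)
  simpa using this

/-- congruence of sums -/
lemma sum_congr_mod {N : Submodule ℂ V} {a b : V} {f : k → V} (ha : a = ∑ x, f x)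
    (hf : ∀ x, f x - b ∈ N) : a - (Fintype.card k : ℂ) • b ∈ N := by
  have h1 : a - (Fintype.card k : ℂ) • b = ∑ x : k, (f x - b) := by
    rw [ha, Finset.sum_sub_distrib, Finset.sum_const, Finset.card_univ, Nat.cast_smul_eq_nsmul]
  rw [h1]
  exact N.sum_mem fun x _ => hf x

lemma lo_pow_le (m : ℕ) (a : k) : D.v ((D.p : F) ^ (m + 1) * D.c a) ≤ exp (-((m + 1 : ℕ) : ℤ)) := by
  rw [← mem_PP]
  have hv : D.v ((D.p : F) ^ (m + 1)) = exp (-((m + 1 : ℕ) : ℤ)) := by
    rw [map_pow, D.hp, ← WithZero.exp_nsmul]; simp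
  have := mul_mem_PP (mem_PP.mpr hv.le) (mem_PP_zero.mpr (D.hc_le a))
  simpa using this

lemma lo_pow_le_one (m : ℕ) (a : k) : D.v ((D.p : F) ^ (m + 1) * D.c a) ≤ 1 := by
  refine (lo_pow_le m a).trans ?_
  rw [← exp_zero, exp_le_exp]; omega

include hs in
/-- (C): modulo any subspace containing all `κ v - v`, `κ ∈ K`, all translates vanish. -/
theorem mem_of_K {N : Submodule ℂ V} (hN : ∀ κ ∈ GLint D.v, ∀ v, ρ κ v - v ∈ N)
    (x : GL (Fin 2) F) : ρ x h ∈ N := by
  have he : ∀ m, hs.e m ∈ N := by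
    intro m
    induction m with
    | zero =>
      rw [e_zero]
      have h1 := hs.sum
      have h2 : (Fintype.card (Option k) : ℂ) • h ∈ N := by
        have h3 : (Fintype.card (Option k) : ℂ) • h = -∑ j : Option k, (ρ (D.rep j) h - h) := by
          rw [Finset.sum_sub_distrib, h1, Finset.sum_const, Finset.card_univ,
            Nat.cast_smul_eq_nsmul]; simp
        rw [h3]
        exact N.neg_mem (N.sum_mem fun j _ => hN _ (D.rep_mem j) h)
      have hq : (Fintype.card (Option k) : ℂ) ≠ 0 := by exact_mod_cast Fintype.card_ne_zero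
      have h4 := N.smul_mem (Fintype.card (Option k) : ℂ)⁻¹ h2
      rwa [smul_smul, inv_mul_cancel₀ hq, one_smul] at h4
    | succ m ih =>
      refine q_smul D (sum_congr_mod (hs.e_succ m) fun a => ?_) ih
      exact hN _ (lo_mem_GLint (lo_pow_le_one m a)) _
  obtain ⟨κ, hκ, m, h1 | h1⟩ := hs.translate x
  · rw [h1]
    have := N.add_mem (hN κ hκ (hs.e m)) (he m)
    simpa using this
  · rw [h1]
    have := N.add_mem (hN κ hκ (hs.e m)) (he m)
    exact N.neg_mem (by simpa using this)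

include hs in
/-- (B): modulo any subspace containing all `i v - v`, `i ∈ I`, all translates are multiples
of `h`. -/
theorem mem_of_I {N : Submodule ℂ V} (hN : ∀ i ∈ Iw D.v 1, ∀ v, ρ i v - v ∈ N)
    (hh : h ∈ N) (x : GL (Fin 2) F) : ρ x h ∈ N := by
  have hcl : ∀ i ∈ Iw D.v 1, ∀ v, v ∈ N → ρ i v ∈ N := by
    intro i hi v hv
    have := N.add_mem (hN i hi v) hv
    simpa using this
  have he : ∀ m, hs.e m ∈ N := by
    intro m
    induction m with
    | zero => rwa [e_zero]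
    | succ m ih =>
      refine q_smul D (sum_congr_mod (hs.e_succ m) fun a => ?_) ih
      exact hN _ (Iw_anti D.v (by omega) (lo_mem_Iw (lo_pow_le m a))) _
  have hwe : ∀ m, ρ w0 (hs.e m) ∈ N := by
    intro m
    induction m with
    | zero =>
      rw [e_zero]
      have h1 : -h = ∑ a : k, ρ (up (D.c a) * w0) h := neg_eq_of_add_eq_zero_right hs.sum'
      refine q_smul D (sum_congr_mod h1 fun a => ?_) (N.neg_mem hh)
      rw [map_mul, Module.End.mul_apply]
      exact hN _ (up_mem_Iw (D.hc_le a) 1) _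
    | succ m ih =>
      have h1 : ρ w0 (hs.e m) =
          ∑ a : k, ρ (up ((D.p : F) ^ (m + 1) * D.c a)) (ρ w0 (hs.e (m + 1))) := by
        rw [hs.e_succ m, map_sum]
        refine Finset.sum_congr rfl fun a _ => ?_
        rw [← Module.End.mul_apply, ← map_mul, ← Module.End.mul_apply, ← map_mul, w0_mul_lo]
      refine q_smul D (sum_congr_mod h1 fun a => ?_) ih
      exact hN _ (up_mem_Iw (lo_pow_le_one m a) 1) _
  have hκe : ∀ κ ∈ GLint D.v, ∀ m, ρ κ (hs.e m) ∈ N := by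
    intro κ hκ m
    obtain ⟨j, hj⟩ := D.exists_rep hκ
    obtain ⟨i, hi, rfl⟩ : ∃ i ∈ Iw D.v 1, κ = D.rep j * i := ⟨_, hj, by group⟩
    cases j with
    | none =>
      rw [LocD.rep_none, one_mul]
      exact hcl i hi _ (he m)
    | some a =>
      rw [LocD.rep_some, mul_assoc, map_mul, Module.End.mul_apply]
      refine hcl _ (up_mem_Iw (D.hc_le a) 1) _ ?_
      -- i = lo x * b with b upper triangular
      have hd1 : D.v (i.val 1 0) ≤ exp (-1) := by simpa using hi.2
      have hdet : D.v (i.val 0 0 * i.val 1 1 - i.val 0 1 * i.val 1 0) = 1 := by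
        rw [← det_val]; exact hi.1.2
      have h00 : D.v (i.val 0 0) = 1 := by
        refine le_antisymm (hi.1.1 0 0) ?_
        by_contra hlt
        have h2 := D.lt_one_iff.mp (not_le.mp hlt)
        have h3 : i.val 0 0 * i.val 1 1 - i.val 0 1 * i.val 1 0 ∈ PP D.v (-1) := by
          refine sub_mem ?_ ?_
          · simpa using mul_mem_PP (mem_PP.mpr h2) (mem_PP_zero.mpr (hi.1.1 1 1))
          · simpa using mul_mem_PP (mem_PP_zero.mpr (hi.1.1 0 1)) (mem_PP.mpr hd1)
        rw [mem_PP, hdet, ← exp_zero, exp_le_exp] at h3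
        omega
      have h00' : i.val 0 0 ≠ 0 := by
        intro h0; rw [h0, map_zero] at h00; exact zero_ne_one h00
      set y : F := i.val 1 0 / i.val 0 0 with hy
      have hyv : D.v y ≤ exp (-1) := by rw [hy, map_div₀, h00, div_one]; exact hd1
      have hb : (lo y)⁻¹ * i ∈ Iw D.v (m + 1) := by
        have h10 : ((lo y)⁻¹ * i).val 1 0 = 0 := by
          rw [lo_inv, mul_val_ij]; simp [hy]; field_simp; ring
        refine ⟨mul_mem (inv_mem (lo_mem_GLint ?_)) hi.1, by rw [h10, map_zero]; exact zero_le⟩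
        refine hyv.trans ?_
        rw [← exp_zero, exp_le_exp]; omega
      have h4 : w0 * i = up y * w0 * ((lo y)⁻¹ * i) := by
        rw [← w0_mul_lo]; group
      rw [h4, map_mul, Module.End.mul_apply, hs.e_fix m hb, map_mul, Module.End.mul_apply]
      refine hcl _ (up_mem_Iw ?_ 1) _ (hwe m)
      refine hyv.trans ?_
      rw [← exp_zero, exp_le_exp]; omega
  obtain ⟨κ, hκ, m, h1 | h1⟩ := hs.translate x
  · rw [h1]; exact hκe κ hκ m
  · rw [h1]; exact N.neg_mem (hκe κ hκ m)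

include hs in
/-- (A): modulo any subspace containing all `κ v - v`, `κ ∈ Kc m`, all translates lie in the
span of `κ e m`, `κ ∈ K`. -/
theorem mem_of_Kc (m : ℕ) {N : Submodule ℂ V} (hN : ∀ κ ∈ Kc D.v m, ∀ v, ρ κ v - v ∈ N)
    (hh : ∀ κ ∈ GLint D.v, ρ κ (hs.e m) ∈ N) (x : GL (Fin 2) F) : ρ x h ∈ N := by
  have hup : ∀ n, ∀ κ ∈ GLint D.v, ρ κ (hs.e (m + n)) ∈ N := by
    intro n
    induction n with
    | zero => simpa using hh
    | succ n ih =>
      intro κ hκ
      have h1 : ρ κ (hs.e (m + n)) =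
          ∑ a : k, ρ (κ * lo ((D.p : F) ^ (m + n + 1) * D.c a) * κ⁻¹) (ρ κ (hs.e (m + n + 1))) := by
        rw [hs.e_succ (m + n), map_sum]
        refine Finset.sum_congr rfl fun a _ => ?_
        rw [← Module.End.mul_apply, ← map_mul, ← Module.End.mul_apply, ← map_mul]
        congr 2; group
      refine q_smul D (sum_congr_mod h1 fun a => ?_) (ih κ hκ)
      refine hN _ (Kc_conj D.v m hκ ?_) _
      have hle := lo_pow_le (D := D) (m + n) a
      refine ⟨lo_mem_GLint (lo_pow_le_one (m + n) a), fun i j => ?_⟩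
      rcases (by omega : i = 0 ∨ i = 1) with rfl | rfl <;>
        rcases (by omega : j = 0 ∨ j = 1) with rfl | rfl
      · simp
      · simp
      · have h5 : (lo ((D.p : F) ^ (m + n + 1) * D.c a)).val 1 0 -
            (1 : Matrix (Fin 2) (Fin 2) F) 1 0 = (D.p : F) ^ (m + n + 1) * D.c a := by simp
        rw [h5]
        refine hle.trans ?_
        rw [exp_le_exp]; push_cast; omega
      · simp
  have hdown : ∀ n l, l + n = m → ∀ κ ∈ GLint D.v, ρ κ (hs.e l) ∈ N := by
    intro n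
    induction n with
    | zero => intro l hl κ hκ; rw [add_zero] at hl; subst hl; exact hh κ hκ
    | succ n ih =>
      intro l hl κ hκ
      rw [hs.e_succ l, map_sum]
      refine N.sum_mem fun a _ => ?_
      rw [← Module.End.mul_apply, ← map_mul]
      exact ih (l + 1) (by omega) _ (mul_mem hκ (lo_mem_GLint (lo_pow_le_one l a)))
  obtain ⟨κ, hκ, l, h1 | h1⟩ := hs.translate x
  · rw [h1]
    rcases le_total m l with hl | hl
    · obtain ⟨n, rfl⟩ := Nat.exists_eq_add_of_le hl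
      exact hup n κ hκ
    · obtain ⟨n, rfl⟩ := Nat.exists_eq_add_of_le hl
      exact hdown n l rfl κ hκ
  · rw [h1]
    refine N.neg_mem ?_
    rcases le_total m l with hl | hl
    · obtain ⟨n, rfl⟩ := Nat.exists_eq_add_of_le hl
      exact hup n κ hκ
    · obtain ⟨n, rfl⟩ := Nat.exists_eq_add_of_le hl
      exact hdown n l rfl κ hκ

end IsStein

end Run7.h634.L
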